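import Pool.Agent.W890.SF.Stm

set_option autoImplicit false

namespace Pool.Agent.W856.SAM.Mix2

open Finset
open Pool.Agent.W890.SF

theorem mix2 : S_MIX2 := by
  classical
  intro V _ y x hy hmean ⟨v0, hv0⟩
  set N : ℝ := (Fintype.card V : ℝ) with hN
  have hN0 : 0 < N := by
    rw [hN]
    have : 0 < Fintype.card V := Fintype.card_pos_iff.2 ⟨v0⟩
    exact_mod_cast this
  have hsplit : ∀ f : V → ℝ, ∑ v, f v = (∑ a : {v : V // y v ≤ x}, f a) +
      ∑ b : {v : V // ¬ y v ≤ x}, f b := fun f =>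
    (Fintype.sum_subtype_add_sum_subtype (fun v => y v ≤ x) f).symm
  set D : ℝ := ∑ b : {v : V // ¬ y v ≤ x}, (y b - x) with hD
  have hDA : ∑ a : {v : V // y v ≤ x}, (x - y a) = D := by
    have h1 : ∑ v, (y v - x) = 0 := by
      rw [sum_sub_distrib, hmean, sum_const, card_univ, nsmul_eq_mul]
      ring
    rw [hsplit] at h1
    have h2 : ∑ a : {v : V // y v ≤ x}, (x - y a) = - ∑ a : {v : V // y v ≤ x}, (y a - x) := by
      rw [← sum_neg_distrib]
      exact sum_congr rfl fun a _ => by ring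
    rw [h2]
    linarith
  have hD0 : 0 < D := by
    rcases lt_or_gt_of_ne hv0 with h | h
    · rw [← hDA]
      refine sum_pos' (fun a _ => sub_nonneg.2 a.2) ⟨⟨v0, h.le⟩, mem_univ _, ?_⟩
      exact sub_pos.2 h
    · refine sum_pos' (fun b _ => (sub_pos.2 (not_le.1 b.2)).le) ⟨⟨v0, not_le.2 h⟩, mem_univ _, ?_⟩
      exact sub_pos.2 h
  have hab : ∀ p : {v : V // y v ≤ x} × {v : V // ¬ y v ≤ x}, 0 < y p.2 - y p.1 := fun p => by
    have h1 := p.1.2
    have h2 := not_le.1 p.2.2
    linarith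
  -- the identity
  have hid : ∀ φ : ℝ → ℝ, ∑ v, φ (y v) = N * ∑ p : {v : V // y v ≤ x} × {v : V // ¬ y v ≤ x},
      (y p.2 - y p.1) / (N * D) * ((1 - (x - y p.1) / (y p.2 - y p.1)) * φ (y p.1) +
        (x - y p.1) / (y p.2 - y p.1) * φ (y p.1 + (y p.2 - y p.1))) := by
    intro φ
    have h1 : ∀ p : {v : V // y v ≤ x} × {v : V // ¬ y v ≤ x},
        (y p.2 - y p.1) / (N * D) * ((1 - (x - y p.1) / (y p.2 - y p.1)) * φ (y p.1) +
        (x - y p.1) / (y p.2 - y p.1) * φ (y p.1 + (y p.2 - y p.1))) =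
        1 / (N * D) * (φ (y p.1) * (y p.2 - x) + φ (y p.2) * (x - y p.1)) := by
      intro p
      have h2 := (hab p).ne'
      rw [add_sub_cancel]
      field_simp
      ring
    rw [sum_congr rfl fun p _ => h1 p, ← mul_sum, sum_add_distrib, Fintype.sum_prod_type,
      Fintype.sum_prod_type_right]
    simp only [← mul_sum]
    rw [← hD, hDA, ← sum_mul, ← sum_mul, hsplit (fun v => φ (y v))]
    field_simp
  have hpos : ∀ p : {v : V // y v ≤ x} × {v : V // ¬ y v ≤ x},
      0 < (y p.2 - y p.1) / (N * D) := fun p => div_pos (hab p) (mul_pos hN0 hD0)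
  refine ⟨{v : V // y v ≤ x} × {v : V // ¬ y v ≤ x}, inferInstance,
    fun p => (y p.2 - y p.1) / (N * D), fun p => y p.1, fun p => y p.2 - y p.1,
    fun p => (x - y p.1) / (y p.2 - y p.1), hpos, ?_, ?_, hid, ?_⟩
  · have h := hid (fun _ => 1)
    simp only [sum_const, card_univ, nsmul_eq_mul, mul_one, sub_add_cancel] at h
    have h2 : N * 1 = N * ∑ p : {v : V // y v ≤ x} × {v : V // ¬ y v ≤ x},
      (y p.2 - y p.1) / (N * D) := by rw [mul_one]; exact h
    exact (mul_left_cancel₀ hN0.ne' h2).symm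
  · intro p
    have h1 := hab p
    have h2 : 0 ≤ x - y p.1 := sub_nonneg.2 p.1.2
    have h3 : x < y p.2 := not_le.1 p.2.2
    refine ⟨hy _, h1, div_nonneg h2 h1.le, ?_, ?_⟩
    · rw [div_lt_one h1]; linarith
    · field_simp
      ring
  · intro γ _ _
    set Wf : {v : V // y v ≤ x} × {v : V // ¬ y v ≤ x} → ℝ := fun p =>
      if y p.1 ≤ γ ∧ 1 - γ ≤ y p.1 + (y p.2 - y p.1) then 0 else (y p.2 - y p.1) / (N * D) with hWf
    have hW0 : ∀ p, 0 ≤ Wf p := by
      intro p
      show 0 ≤ (if ((y p.1 : ℝ) ≤ γ ∧ 1 - γ ≤ y p.1 + (y p.2 - y p.1)) then (0 : ℝ) else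
        (y p.2 - y p.1) / (N * D))
      split_ifs
      · exact le_rfl
      · exact (hpos p).le
    have hA : ∑ a : {v : V // y v ≤ x}, (if γ < y a then (1 : ℝ) else 0) ≤ N * ∑ p, Wf p := by
      rw [Fintype.sum_prod_type, mul_sum]
      refine sum_le_sum fun a _ => ?_
      split_ifs with h
      · have h1 : ∀ b : {v : V // ¬ y v ≤ x}, (y b - x) / (N * D) ≤ Wf (a, b) := by
          intro b
          show _ ≤ (if ((y a : ℝ) ≤ γ ∧ 1 - γ ≤ y a + (y b - y a)) then (0 : ℝ) else
            (y b - y a) / (N * D))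
          rw [if_neg (fun hh => absurd hh.1 (not_le.2 h))]
          exact div_le_div_of_nonneg_right (by have := a.2; linarith) (mul_pos hN0 hD0).le
        have h2 := sum_le_sum fun (b : {v : V // ¬ y v ≤ x}) (_ : b ∈ univ) => h1 b
        rw [← sum_div, ← hD] at h2
        have h3 : N * (D / (N * D)) = 1 := by field_simp
        rw [← h3]
        exact mul_le_mul_of_nonneg_left h2 hN0.le
      · exact mul_nonneg hN0.le (sum_nonneg fun b _ => hW0 _)
    have hB : ∑ b : {v : V // ¬ y v ≤ x}, (if y b < 1 - γ then (1 : ℝ) else 0) ≤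
        N * ∑ p, Wf p := by
      rw [Fintype.sum_prod_type_right, mul_sum]
      refine sum_le_sum fun b _ => ?_
      split_ifs with h
      · have h1 : ∀ a : {v : V // y v ≤ x}, (x - y a) / (N * D) ≤ Wf (a, b) := by
          intro a
          show _ ≤ (if ((y a : ℝ) ≤ γ ∧ 1 - γ ≤ y a + (y b - y a)) then (0 : ℝ) else
            (y b - y a) / (N * D))
          rw [if_neg (fun hh => absurd hh.2 (not_le.2 (by simpa using h)))]
          exact div_le_div_of_nonneg_right (by have := not_le.1 b.2; linarith) (mul_pos hN0 hD0).le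
        have h2 := sum_le_sum fun (a : {v : V // y v ≤ x}) (_ : a ∈ univ) => h1 a
        rw [← sum_div, hDA] at h2
        have h3 : N * (D / (N * D)) = 1 := by field_simp
        rw [← h3]
        exact mul_le_mul_of_nonneg_left h2 hN0.le
      · exact mul_nonneg hN0.le (sum_nonneg fun b _ => hW0 _)
    have hcard : (({v : V | γ < y v ∧ y v < 1 - γ}.ncard : ℕ) : ℝ) =
        ∑ v, if γ < y v ∧ y v < 1 - γ then (1 : ℝ) else 0 := by
      rw [Set.ncard_eq_toFinset_card', sum_boole]
      congr 2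
      ext v
      simp
    rw [hcard, hsplit]
    have e1 : ∑ a : {v : V // y v ≤ x}, (if γ < y a ∧ y a < 1 - γ then (1 : ℝ) else 0) ≤
        ∑ a : {v : V // y v ≤ x}, (if γ < y a then (1 : ℝ) else 0) := by
      refine sum_le_sum fun a _ => ?_
      split_ifs with h1 h2 h2
      · exact le_rfl
      · exact absurd h1.1 h2
      · exact zero_le_one
      · exact le_rfl
    have e2 : ∑ b : {v : V // ¬ y v ≤ x}, (if γ < y b ∧ y b < 1 - γ then (1 : ℝ) else 0) ≤
        ∑ b : {v : V // ¬ y v ≤ x}, (if y b < 1 - γ then (1 : ℝ) else 0) := by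
      refine sum_le_sum fun a _ => ?_
      split_ifs with h1 h2 h2
      · exact le_rfl
      · exact absurd h1.2 h2
      · exact zero_le_one
      · exact le_rfl
    linarith

end Pool.Agent.W856.SAM.Mix2
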