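import Pool.Agent.W890.SF.Stm2

set_option autoImplicit false

namespace Pool.Agent.W856.SAM.Rng

open Set
open Pool.Agent.W890.SF

lemma bern2 (y : ℝ) (hy : 0 ≤ y) (k : ℕ) : 1 + k * y + k * (k - 1) / 2 * y ^ 2 ≤ (1 + y) ^ k := by
  induction k with
  | zero => simp
  | succ k ih =>
    rw [pow_succ]
    have h1 : (1 + (k : ℝ) * y + k * (k - 1) / 2 * y ^ 2) * (1 + y) ≤ (1 + y) ^ k * (1 + y) :=
      mul_le_mul_of_nonneg_right ih (by linarith)
    refine le_trans ?_ h1
    push_cast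
    have h2 : 0 ≤ (k : ℝ) * (k - 1) / 2 * y ^ 3 := by
      rcases Nat.eq_zero_or_pos k with h | h
      · rw [h]; simp
      · have : (1 : ℝ) ≤ k := by exact_mod_cast h
        have h3 : 0 ≤ (k : ℝ) - 1 := by linarith
        positivity
    nlinarith [h2]

lemma e_bound (k : ℕ) (hk : 2 ≤ k) : (1 - 20 / (20 * (k : ℝ) + 19)) ^ k ≤ 19 / 39 := by
  have hK : (2 : ℝ) ≤ k := by exact_mod_cast hk
  have hpos : 0 < 20 * (k : ℝ) + 19 := by linarith
  have h1 : (9 / 4 : ℝ) ≤ (1 + 1 / (k : ℝ)) ^ k := by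
    refine le_trans ?_ (bern2 (1 / (k : ℝ)) (by positivity) k)
    have h2 : (k : ℝ) ≠ 0 := by linarith
    have h3 : 1 + (k : ℝ) * (1 / k) + k * (k - 1) / 2 * (1 / (k : ℝ)) ^ 2 =
        5 / 2 - 1 / (2 * k) := by
      field_simp
      ring
    rw [h3]
    have h4 : 1 / (2 * (k : ℝ)) ≤ 1 / 4 := by
      apply one_div_le_one_div_of_le (by norm_num)
      linarith
    linarith
  have h2 : (1 - 20 / (20 * (k : ℝ) + 19)) ≤ (1 + 1 / (k : ℝ))⁻¹ := by
    have h3 : (1 + 1 / (k : ℝ))⁻¹ = k / (k + 1) := by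
      field_simp
    rw [h3, le_div_iff₀ (by linarith)]
    have h4 : 1 - 20 / (20 * (k : ℝ) + 19) = (20 * k - 1) / (20 * k + 19) := by
      field_simp
      ring
    rw [h4, div_mul_eq_mul_div, div_le_iff₀ hpos]
    nlinarith
  have h0 : 0 ≤ 1 - 20 / (20 * (k : ℝ) + 19) := by
    rw [sub_nonneg, div_le_one hpos]
    linarith
  have h3 := pow_le_pow_left₀ h0 h2 k
  rw [inv_pow] at h3
  refine h3.trans ?_
  have h5 : ((1 + 1 / (k : ℝ)) ^ k)⁻¹ ≤ (9 / 4 : ℝ)⁻¹ := inv_anti₀ (by norm_num) h1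
  refine h5.trans ?_
  norm_num

theorem rng : S_RNG := by
  intro k hk x hx hx20
  obtain ⟨K, hKd⟩ : ∃ K : ℝ, K = (k : ℝ) := ⟨_, rfl⟩
  have hK : 2 ≤ K := by rw [hKd]; exact_mod_cast hk
  have heb := e_bound k hk
  have hpow : ∀ y : ℝ, 0 < y → K * Real.log y = Real.log (y ^ k) := by
    intro y _
    rw [Real.log_pow, hKd]
  rw [← hKd] at hx20 heb ⊢
  have hpos : 0 < 20 * K + 19 := by linarith
  obtain ⟨x0, hx0d⟩ : ∃ x0 : ℝ, x0 = 20 / (20 * K + 19) := ⟨_, rfl⟩
  rw [← hx0d] at heb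
  have hxx0 : x ≤ x0 := by
    rw [hx0d, le_div_iff₀ hpos]; linarith
  have hKx0 : K * x0 < 1 := by
    rw [hx0d, mul_div_assoc', div_lt_one hpos]; linarith
  have hx0pos : 0 < x0 := lt_of_lt_of_le hx hxx0
  have hp : ∀ u : ℝ, 0 ≤ u → u ≤ x0 → 0 < 1 - K * u ∧ 0 < 1 - (K - 1) * u ∧ 0 < 1 - u := by
    intro u hu0 hu
    have h1 : K * u ≤ K * x0 := mul_le_mul_of_nonneg_left hu (by linarith)
    refine ⟨by linarith, by nlinarith, by nlinarith⟩
  refine ⟨by linarith [(hp x hx.le hxx0).1], ?_⟩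
  set f : ℝ → ℝ := fun u => Real.log (1 - K * u) - Real.log (1 - (K - 1) * u) -
    K * Real.log (1 - u) with hf
  set f' : ℝ → ℝ := fun u => (K * ((1 - K * u) * (1 - (K - 1) * u)) - (1 - u)) /
    ((1 - K * u) * (1 - (K - 1) * u) * (1 - u)) with hf'
  have hder : ∀ u : ℝ, 0 ≤ u → u ≤ x0 → HasDerivAt f (f' u) u := by
    intro u hu0 hu
    obtain ⟨h1, h2, h3⟩ := hp u hu0 hu
    have d1 : HasDerivAt (fun u : ℝ => 1 - K * u) (-K) u := by
      simpa using ((hasDerivAt_id u).const_mul K).const_sub 1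
    have d2 : HasDerivAt (fun u : ℝ => 1 - (K - 1) * u) (-(K - 1)) u := by
      simpa using ((hasDerivAt_id u).const_mul (K - 1)).const_sub 1
    have d3 : HasDerivAt (fun u : ℝ => 1 - u) (-1) u := by
      simpa using (hasDerivAt_id u).const_sub 1
    have d := ((d1.log h1.ne').sub (d2.log h2.ne')).sub ((d3.log h3.ne').const_mul K)
    refine d.congr_deriv ?_
    show -K / (1 - K * u) - -(K - 1) / (1 - (K - 1) * u) - K * (-1 / (1 - u)) =
      (K * ((1 - K * u) * (1 - (K - 1) * u)) - (1 - u)) /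
        ((1 - K * u) * (1 - (K - 1) * u) * (1 - u))
    have hrel : K * (1 - (K - 1) * u) - (K - 1) * (1 - K * u) = 1 := by ring
    generalize 1 - K * u = p1 at *
    generalize 1 - (K - 1) * u = p2 at *
    generalize 1 - u = p3 at *
    have h1' := h1.ne'
    have h2' := h2.ne'
    have h3' := h3.ne'
    rw [eq_div_iff (by positivity)]
    have e : (-K / p1 - -(K - 1) / p2 - K * (-1 / p3)) * (p1 * p2 * p3) =
        -K * (p2 * p3) + (K - 1) * (p1 * p3) + K * (p1 * p2) := by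
      field_simp
      ring
    rw [e]
    linear_combination (-p3) * hrel
  have hf0 : f 0 = 0 := by simp [hf]
  have hfx0 : 0 ≤ f x0 := by
    obtain ⟨h1, h2, h3⟩ := hp x0 hx0pos.le le_rfl
    show 0 ≤ Real.log (1 - K * x0) - Real.log (1 - (K - 1) * x0) - K * Real.log (1 - x0)
    rw [← Real.log_div h1.ne' h2.ne', hpow _ h3]
    have h4 : (1 - K * x0) / (1 - (K - 1) * x0) = 19 / 39 := by
      rw [div_eq_div_iff h2.ne' (by norm_num), hx0d]
      field_simp
      ring
    rw [h4]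
    have := Real.log_le_log (pow_pos h3 k) heb
    linarith
  have hcont : ∀ a b : ℝ, 0 ≤ a → b ≤ x0 → ContinuousOn f (Icc a b) := fun a b ha hb u hu =>
    (hder u (ha.trans hu.1) (hu.2.trans hb)).continuousAt.continuousWithinAt
  have hfx : 0 ≤ f x := by
    by_contra hneg
    push Not at hneg
    have hxlt : x < x0 := by
      rcases hxx0.lt_or_eq with h | h
      · exact h
      · rw [h] at hneg; exact absurd hfx0 (not_le.2 hneg)
    obtain ⟨c1, hc1, e1⟩ := exists_hasDerivAt_eq_slope f f' hx (hcont 0 x le_rfl hxx0)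
      (fun u hu => hder u hu.1.le (hu.2.le.trans hxx0))
    obtain ⟨c2, hc2, e2⟩ := exists_hasDerivAt_eq_slope f f' hxlt (hcont x x0 hx.le le_rfl)
      (fun u hu => hder u (hx.le.trans hu.1.le) hu.2.le)
    have s1 : f' c1 < 0 := by
      rw [e1, hf0, sub_zero, sub_zero]
      exact div_neg_of_neg_of_pos hneg hx
    have s2 : 0 < f' c2 := by
      rw [e2]
      exact div_pos (by linarith) (by linarith)
    obtain ⟨a1, a2, a3⟩ := hp c1 hc1.1.le (hc1.2.le.trans hxx0)
    obtain ⟨b1, b2, b3⟩ := hp c2 (hx.le.trans hc2.1.le) hc2.2.le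
    have q1 : K * ((1 - K * c1) * (1 - (K - 1) * c1)) - (1 - c1) < 0 := by
      by_contra h
      push Not at h
      have : 0 ≤ f' c1 := div_nonneg h (by positivity)
      linarith
    have q2 : 0 < K * ((1 - K * c2) * (1 - (K - 1) * c2)) - (1 - c2) := by
      by_contra h
      push Not at h
      have : f' c2 ≤ 0 := div_nonpos_of_nonpos_of_nonneg h (by positivity)
      linarith
    have hc12 : c1 < c2 := hc1.2.trans hc2.1
    -- slopes
    have hs : 0 < (K ^ 2 * (K - 1) * (c1 + c2) - (2 * K ^ 2 - K - 1)) := by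
      have h5 : 0 < (K ^ 2 * (K - 1) * (c1 + c2) - (2 * K ^ 2 - K - 1)) * (c2 - c1) := by
        nlinarith
      exact pos_of_mul_pos_left h5 (by linarith)
    have hK2 : 0 < K ^ 2 * (K - 1) := by
      have : 0 < K - 1 := by linarith
      positivity
    have hs2 : 0 < (K ^ 2 * (K - 1) * (c2 + 1 / K) - (2 * K ^ 2 - K - 1)) := by
      have h6 : c1 < 1 / K := by
        rw [lt_div_iff₀ (by linarith)]
        linarith
      have h7 : K ^ 2 * (K - 1) * (c1 + c2) < K ^ 2 * (K - 1) * (c2 + 1 / K) :=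
        mul_lt_mul_of_pos_left (by linarith) hK2
      linarith
    have h8 : c2 < 1 / K := by
      rw [lt_div_iff₀ (by linarith)]
      linarith
    have h9 := mul_pos hs2 (sub_pos.2 h8)
    have h10 : (K ^ 2 * (K - 1) * (c2 + 1 / K) - (2 * K ^ 2 - K - 1)) * (1 / K - c2) =
        -(1 - 1 / K) - (K * ((1 - K * c2) * (1 - (K - 1) * c2)) - (1 - c2)) := by
      have : K ≠ 0 := by linarith
      field_simp
      ring
    rw [h10] at h9
    have h11 : 1 / K < 1 := by
      rw [div_lt_one (by linarith)]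
      linarith
    linarith
  obtain ⟨h1, h2, h3⟩ := hp x hx.le hxx0
  have h4 : Real.log ((1 - x) ^ k) ≤ Real.log ((1 - K * x) / (1 - (K - 1) * x)) := by
    rw [Real.log_div h1.ne' h2.ne', ← hpow _ h3]
    have : 0 ≤ Real.log (1 - K * x) - Real.log (1 - (K - 1) * x) - K * Real.log (1 - x) := hfx
    linarith
  exact (Real.log_le_log_iff (pow_pos h3 k) (div_pos h1 h2)).1 h4

end Pool.Agent.W856.SAM.Rng
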